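import Pool.Agent.Y862.SQ.Stm2
import Pool.Agent.Y810.SQ.Law2
import Pool.Agent.H373R2.T7.Fund

set_option autoImplicit false

/-!
# The joint Poisson law, all windows (helper87, after helper810's proof of S_LAW2)
-/

namespace Pool.Agent.Y87.SQ

open Finset Filter
open Pool.Agent.Y862.SQ
open Pool.Agent.Y810.SQ (mem_pr V1_pos V1_bounds level_low logpow_rpow)

lemma card_diff (Om : Finset ℕ) (P P' B : ℕ → Prop) [DecidablePred P] [DecidablePred P']
    [DecidablePred B] (h : ∀ n ∈ Om, ¬ B n → (P n ↔ P' n)) :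
    |((Om.filter P).card : ℝ) - (Om.filter P').card| ≤ (Om.filter B).card := by
  have h1 : (Om.filter P).card ≤ (Om.filter P').card + (Om.filter B).card := by
    refine (card_le_card ?_).trans (card_union_le _ _)
    intro n hn
    rw [mem_filter] at hn
    rw [mem_union, mem_filter, mem_filter]
    by_cases hB : B n
    · exact Or.inr ⟨hn.1, hB⟩
    · exact Or.inl ⟨hn.1, (h n hn.1 hB).1 hn.2⟩
  have h2 : (Om.filter P').card ≤ (Om.filter P).card + (Om.filter B).card := by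
    refine (card_le_card ?_).trans (card_union_le _ _)
    intro n hn
    rw [mem_filter] at hn
    rw [mem_union, mem_filter, mem_filter]
    by_cases hB : B n
    · exact Or.inr ⟨hn.1, hB⟩
    · exact Or.inl ⟨hn.1, (h n hn.1 hB).2 hn.2⟩
  have h1' : ((Om.filter P).card : ℝ) ≤ (Om.filter P').card + (Om.filter B).card := by
    exact_mod_cast h1
  have h2' : ((Om.filter P').card : ℝ) ≤ (Om.filter P).card + (Om.filter B).card := by
    exact_mod_cast h2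
  rw [abs_le]
  constructor <;> linarith

open Classical in
lemma nuB_one' (Q : ℕ → ℕ → Prop) (p : ℕ) (h1 : ∀ r < p, ∀ r' < p, Q p r → Q p r' → r = r')
    (h2 : ∃ r < p, Q p r) : Pool.Agent.H373R2.T7.nuB Q p = 1 := by
  unfold Pool.Agent.H373R2.T7.nuB
  apply le_antisymm
  · refine card_le_one.2 fun r hr r' hr' => ?_
    have hr := mem_filter.1 hr
    have hr' := mem_filter.1 hr'
    exact h1 r (mem_range.1 hr.1) r' (mem_range.1 hr'.1) hr.2 hr'.2
  · obtain ⟨r, hr, hQ⟩ := h2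
    exact card_pos.2 ⟨r, mem_filter.2 ⟨mem_range.2 hr, hQ⟩⟩

lemma nuB_one (b p : ℕ) (hp : p.Prime) :
    Pool.Agent.H373R2.T7.nuB (fun p n => p ∣ n + b) p = 1 := by
  refine nuB_one' _ p ?_ ⟨(p - b % p) % p, Nat.mod_lt _ hp.pos, ?_⟩
  · intro r hr r' hr' hd hd'
    have h1 : r + b ≡ r' + b [MOD p] :=
      ((Nat.modEq_zero_iff_dvd).2 hd).trans ((Nat.modEq_zero_iff_dvd).2 hd').symm
    have h2 : r ≡ r' [MOD p] := Nat.ModEq.add_right_cancel' b h1
    rw [Nat.ModEq, Nat.mod_eq_of_lt hr, Nat.mod_eq_of_lt hr'] at h2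
    exact h2
  · have h1 : b % p < p := Nat.mod_lt _ hp.pos
    rw [← Nat.modEq_zero_iff_dvd]
    have h2 : (p - b % p) % p + b ≡ (p - b % p) + b % p [MOD p] :=
      (Nat.mod_modEq _ _).add (Nat.mod_modEq b p).symm
    refine h2.trans ?_
    rw [Nat.sub_add_cancel h1.le]
    exact (Nat.modEq_zero_iff_dvd).2 dvd_rfl

/-- upper bound for the number of integers without small prime factors in an interval -/
lemma rough_count : ∃ K2 y2 : ℕ, ∀ Y y : ℕ, y2 ≤ y → y ^ K2 ≤ Y → ∀ Z b : ℕ,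
    (((Ioc Z (Z + Y)).filter (fun n => ∀ p ∈ pr y, ¬ p ∣ n + b)).card : ℝ) ≤
      2 * (Y * V1 y) + √(Y : ℝ) := by
  classical
  obtain ⟨K, x0, -, h⟩ := Pool.Agent.H373R2.T7.sys_fund 1 le_rfl 1 one_pos
  refine ⟨K, x0, fun Y y hy hyY Z b => ?_⟩
  have hper : Pool.Agent.H373R2.T7.PerB (fun p n => p ∣ n + (Z + b)) 1 := by
    refine ⟨fun p n => ?_, fun p hp => (nuB_one (Z + b) p hp).le⟩
    have h1 : n % p + (Z + b) ≡ n + (Z + b) [MOD p] := (Nat.mod_modEq n p).add_right _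
    exact (h1.dvd_iff dvd_rfl).symm
  have h1 := h Y y hy hyY _ hper Y
  have e1 : ∏ p ∈ Pool.Agent.H373R2.T7.pz y,
      (1 - (Pool.Agent.H373R2.T7.nuB (fun p n => p ∣ n + (Z + b)) p : ℝ) / p) = V1 y := by
    unfold V1
    refine Finset.prod_congr rfl fun p hp => ?_
    rw [nuB_one _ p (mem_pr.1 hp).1, Nat.cast_one]
  rw [e1] at h1
  have e2 : ((Ioc Z (Z + Y)).filter (fun n => ∀ p ∈ pr y, ¬ p ∣ n + b)).card ≤
      ((Icc 1 Y).filter (fun n : ℕ => ∀ p ∈ Pool.Agent.H373R2.T7.pz y,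
        ¬ p ∣ n + (Z + b))).card := by
    refine card_le_card_of_injOn (fun n => n - Z) ?_ ?_
    · intro n hn
      rw [mem_coe, mem_filter, mem_Ioc] at hn
      rw [mem_coe, mem_filter, mem_Icc]
      have h3 : n - Z + (Z + b) = n + b := by omega
      refine ⟨⟨?_, ?_⟩, fun p hp => ?_⟩
      · change 1 ≤ n - Z
        omega
      · change n - Z ≤ Y
        omega
      · change ¬ p ∣ n - Z + (Z + b)
        rw [h3]
        exact hn.2 p hp
    · intro n hn n' hn' hnn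
      rw [mem_coe, mem_filter, mem_Ioc] at hn hn'
      simp only at hnn
      omega
  have h2 := (abs_le.1 h1).2
  have e3 : (((Ioc Z (Z + Y)).filter (fun n => ∀ p ∈ pr y, ¬ p ∣ n + b)).card : ℝ) ≤
      (((Icc 1 Y).filter (fun n : ℕ => ∀ p ∈ Pool.Agent.H373R2.T7.pz y,
        ¬ p ∣ n + (Z + b))).card : ℝ) := by exact_mod_cast e2
  refine e3.trans ?_
  rw [sub_le_iff_le_add] at h2
  have h3 : (((Icc 1 Y).filter (fun n : ℕ => ∀ p ∈ Pool.Agent.H373R2.T7.pz y,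
        ¬ p ∣ n + (Z + b))).card : ℝ) ≤ 1 * (Y * V1 y) + √(Y : ℝ) + Y * V1 y := by
    refine le_trans (le_of_eq ?_) h2
    congr!
  linarith

/-- the windows with squares -/
lemma nk_eq_nj {y a L n M : ℕ} {c : ℤ} (hc : -(M : ℤ) ≤ c)
    (h : ∀ m ≤ Nat.sqrt M, ¬ ∀ p ∈ pr y, ¬ p ∣ n + (a + m)) : Nk y a c L n = Nj y a c L n := by
  classical
  unfold Nk Nj
  congr 1
  ext s
  rw [mem_filter, mem_filter]
  refine and_congr_right fun hs => ?_
  rw [mem_Ioc] at hs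
  refine ⟨fun h1 => ⟨fun hsq => ?_, h1⟩, fun h1 => h1.2⟩
  obtain ⟨t, ht⟩ := hsq
  have h2 : (t.natAbs : ℤ) * t.natAbs = -s := by
    rw [ht, Int.natAbs_mul_self']
  have h3 : t.natAbs ≤ Nat.sqrt M := by
    rw [Nat.le_sqrt]
    have : (t.natAbs : ℤ) * t.natAbs ≤ M := by rw [h2]; omega
    exact_mod_cast this
  apply h t.natAbs h3
  intro p hp hpd
  apply h1 p hp
  have h4 : ((n : ℤ) + a) ^ 2 + s = ((n : ℤ) + a - t.natAbs) * ((n + (a + t.natAbs) : ℕ) : ℤ) := by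
    have h5 : s = -((t.natAbs : ℤ) * t.natAbs) := by rw [h2]; ring
    rw [h5]
    push_cast
    ring
  rw [h4]
  exact Dvd.dvd.mul_left (by exact_mod_cast hpd) _

lemma win_mono {k M M' : ℕ} {a : Fin k → ℕ} {c : Fin k → ℤ} {L : Fin k → ℕ} (h : M ≤ M')
    (hW : Win M a c L) : Win M' a c L := by
  refine ⟨fun j => ?_, hW.2⟩
  obtain ⟨h1, h2, h3⟩ := hW.1 j
  exact ⟨h1.trans h, by omega, by omega⟩

/-- the number of `n` with exceptional squares -/
lemma bad_count {k : ℕ} (a : Fin k → ℕ) (y M Z Y : ℕ) (D : ℝ)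
    (h : ∀ b : ℕ, (((Ioc Z (Z + Y)).filter (fun n => ∀ p ∈ pr y, ¬ p ∣ n + b)).card : ℝ) ≤ D)
    [DecidablePred (fun n => ∃ j, ∃ m ≤ Nat.sqrt M, ∀ p ∈ pr y, ¬ p ∣ n + (a j + m))] :
    (((Ioc Z (Z + Y)).filter (fun n => ∃ j, ∃ m ≤ Nat.sqrt M,
      ∀ p ∈ pr y, ¬ p ∣ n + (a j + m))).card : ℝ) ≤ k * ((Nat.sqrt M + 1 : ℕ) * D) := by
  have h1 : ((Ioc Z (Z + Y)).filter (fun n => ∃ j, ∃ m ≤ Nat.sqrt M,
      ∀ p ∈ pr y, ¬ p ∣ n + (a j + m))) ⊆ (univ : Finset (Fin k)).biUnion (fun j =>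
        (range (Nat.sqrt M + 1)).biUnion (fun m => (Ioc Z (Z + Y)).filter
          (fun n => ∀ p ∈ pr y, ¬ p ∣ n + (a j + m)))) := by
    intro n hn
    rw [mem_filter] at hn
    obtain ⟨hn1, j, m, hm, hn2⟩ := hn
    rw [mem_biUnion]
    refine ⟨j, mem_univ _, ?_⟩
    rw [mem_biUnion]
    exact ⟨m, mem_range.2 (by omega), mem_filter.2 ⟨hn1, hn2⟩⟩
  have h2 : (((Ioc Z (Z + Y)).filter (fun n => ∃ j, ∃ m ≤ Nat.sqrt M,
      ∀ p ∈ pr y, ¬ p ∣ n + (a j + m))).card : ℝ) ≤ ((∑ j : Fin k, ∑ m ∈ range (Nat.sqrt M + 1),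
        ((Ioc Z (Z + Y)).filter (fun n => ∀ p ∈ pr y, ¬ p ∣ n + (a j + m))).card : ℕ) : ℝ) := by
    have := (card_le_card h1).trans (card_biUnion_le.trans
      (Finset.sum_le_sum fun j _ => card_biUnion_le))
    exact_mod_cast this
  refine h2.trans ?_
  push_cast
  calc ∑ j : Fin k, ∑ m ∈ range (Nat.sqrt M + 1),
        (((Ioc Z (Z + Y)).filter (fun n => ∀ p ∈ pr y, ¬ p ∣ n + (a j + m))).card : ℝ)
      ≤ ∑ j : Fin k, ∑ m ∈ range (Nat.sqrt M + 1), D :=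
        Finset.sum_le_sum fun j _ => Finset.sum_le_sum fun m _ => h _
    _ = _ := by
        rw [Finset.sum_const, Finset.sum_const, card_univ, Fintype.card_fin, card_range,
          nsmul_eq_mul, nsmul_eq_mul]
        push_cast
        ring

/-- the numerical estimate -/
lemma num_est (k S : ℝ) (V Y x1 ε : ℝ) (hk : 0 ≤ k) (hS : 0 ≤ S) (hV : 0 < V) (hY : 0 ≤ Y)
    (hε : 0 < ε) (hS2 : S ^ 2 ≤ 4 * (x1 / V)) (h1 : 256 * (k ^ 2 * x1) * V ≤ ε ^ 2)
    (h2 : 64 * (k ^ 2 * x1) / V ≤ ε ^ 2 * Y) :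
    k * (S * (2 * (Y * V) + √Y)) ≤ ε / 2 * Y := by
  have e1 : k * (S * (2 * V)) ≤ ε / 4 := by
    rw [← pow_le_pow_iff_left₀ (by positivity) (by positivity) two_ne_zero]
    calc (k * (S * (2 * V))) ^ 2 = 4 * k ^ 2 * V ^ 2 * S ^ 2 := by ring
      _ ≤ 4 * k ^ 2 * V ^ 2 * (4 * (x1 / V)) := by gcongr
      _ = (256 * (k ^ 2 * x1) * V) / 16 := by field_simp; ring
      _ ≤ ε ^ 2 / 16 := by gcongr
      _ = (ε / 4) ^ 2 := by ring
  have e2 : k * (S * √Y) ≤ ε / 4 * Y := by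
    rw [← pow_le_pow_iff_left₀ (by positivity) (by positivity) two_ne_zero]
    calc (k * (S * √Y)) ^ 2 = k ^ 2 * S ^ 2 * (√Y) ^ 2 := by ring
      _ = k ^ 2 * S ^ 2 * Y := by rw [Real.sq_sqrt hY]
      _ ≤ k ^ 2 * (4 * (x1 / V)) * Y := by gcongr
      _ = (64 * (k ^ 2 * x1) / V) / 16 * Y := by ring
      _ ≤ (ε ^ 2 * Y) / 16 * Y := by gcongr
      _ = (ε / 4 * Y) ^ 2 := by ring
  calc k * (S * (2 * (Y * V) + √Y)) = k * (S * (2 * V)) * Y + k * (S * √Y) := by ring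
    _ ≤ ε / 4 * Y + ε / 4 * Y := by gcongr
    _ = ε / 2 * Y := by ring

lemma sq_est (S M q : ℝ) (h1 : 1 ≤ q) (h2 : S * S ≤ M) (h3 : M ≤ q) : (S + 1) ^ 2 ≤ 4 * q := by
  have h4 := sq_nonneg (S - 1)
  nlinarith

theorem t_LAWK (h1 : S_LAWJ) : S_LAWK := by
  intro k θ hθ x0 ε hε
  obtain ⟨x1, hx1⟩ : ∃ x1, x1 = max x0 1 := ⟨_, rfl⟩
  have hx11 : 1 ≤ x1 := by rw [hx1]; exact le_max_right _ _
  have hx10 : x0 ≤ x1 := by rw [hx1]; exact le_max_left _ _
  have hx1pos : 0 < x1 := by linarith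
  obtain ⟨K0, y0, M0, R0, hlaw⟩ := h1 k x1 (ε / 2) (by linarith) (by positivity)
  obtain ⟨K2, y2, hrough⟩ := rough_count
  obtain ⟨c, C, hc, hC, hV⟩ := V1_bounds
  obtain ⟨R1, hR1⟩ : ∃ R1 : ℕ, (K0 : ℝ) / θ ≤ R1 := exists_nat_ge _
  obtain ⟨R2, hR2⟩ : ∃ R2 : ℕ, (K2 : ℝ) / θ ≤ R2 := exists_nat_ge _
  refine ⟨max (max R1 R2) 2, ?_⟩
  intro r hr
  have hr2 : 2 ≤ r := (le_max_right _ _).trans hr
  have hrr : (2 : ℝ) ≤ r := by exact_mod_cast hr2
  have hrpos : (0 : ℝ) < r := by linarith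
  have hrK : (K0 : ℝ) ≤ θ * r := by
    have h1 : (K0 : ℝ) / θ ≤ r :=
      hR1.trans (by exact_mod_cast (le_max_left _ _).trans ((le_max_left _ _).trans hr))
    rw [div_le_iff₀ hθ] at h1
    linarith
  have hrK2 : (K2 : ℝ) ≤ θ * r := by
    have h1 : (K2 : ℝ) / θ ≤ r :=
      hR2.trans (by exact_mod_cast (le_max_right _ _).trans ((le_max_left _ _).trans hr))
    rw [div_le_iff₀ hθ] at h1
    linarith
  have hXr : Tendsto (fun X : ℕ => (X : ℝ)) atTop atTop := tendsto_natCast_atTop_atTop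
  have hpow2 : Tendsto (fun X : ℕ => (X : ℝ) ^ (1 / (2 * r : ℝ))) atTop atTop :=
    (tendsto_rpow_atTop (by positivity)).comp hXr
  have hlogX : Tendsto (fun X : ℕ => Real.log (X : ℝ)) atTop atTop :=
    Real.tendsto_log_atTop.comp hXr
  have hpos : 0 < (x1 / c) ^ R0 + 1 := by
    have : 0 ≤ (x1 / c) ^ R0 := pow_nonneg (div_nonneg (by linarith) hc.le) _
    linarith
  have hk0 : (0 : ℝ) ≤ k := Nat.cast_nonneg k
  have hpos2 : 0 < 64 * ((k : ℝ) ^ 2 * x1) / c / ε ^ 2 + 1 := by positivity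
  have hev : ∀ᶠ X : ℕ in atTop, ∀ Z Y : ℕ, (X : ℝ) ^ θ ≤ Y → ∀ M : ℕ,
      M * V1 ⌊(X : ℝ) ^ (1 / (r : ℝ))⌋₊ ≤ x0 →
      ∀ (a : Fin k → ℕ) (c : Fin k → ℤ) (L : Fin k → ℕ), Win M a c L → ∀ A : Finset (Fin k → ℕ),
      |(((Ioc Z (Z + Y)).filter (fun n =>
        (fun j => Nk ⌊(X : ℝ) ^ (1 / (r : ℝ))⌋₊ (a j) (c j) (L j) n) ∈ A)).card : ℝ) -
        Y * ∑ v ∈ A, ∏ j, (Real.exp (-(L j * V1 ⌊(X : ℝ) ^ (1 / (r : ℝ))⌋₊)) *
          (L j * V1 ⌊(X : ℝ) ^ (1 / (r : ℝ))⌋₊) ^ v j / (v j).factorial)| ≤ ε * Y := by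
    filter_upwards [hpow2.eventually_ge_atTop ((y0 : ℝ) + y2 + 3), eventually_ge_atTop 16,
      hlogX.eventually_ge_atTop (2 * r * (1 + C * ((M0 : ℝ) + 1) +
        C * (256 * ((k : ℝ) ^ 2 * x1) / ε ^ 2))),
      logpow_rpow R0 ((x1 / c) ^ R0 + 1) θ hpos hθ,
      logpow_rpow 1 (64 * ((k : ℝ) ^ 2 * x1) / c / ε ^ 2 + 1) θ hpos2 hθ] with
      X hX1 hX16 hX3 hX4 hX5
    intro Z Y hXY M hMx a cc L hWin A
    have hX16r : (16 : ℝ) ≤ X := by exact_mod_cast hX16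
    have hXpos : (0 : ℝ) < X := by linarith
    have hXone : (1 : ℝ) ≤ X := by linarith
    have hy0r : (0 : ℝ) ≤ y0 := Nat.cast_nonneg _
    have hy2r : (0 : ℝ) ≤ y2 := Nat.cast_nonneg _
    obtain ⟨hy1, hy2', hy3, hy4⟩ := level_low r hr2 X (by omega) (by linarith)
    obtain ⟨y, hy⟩ : ∃ y, y = ⌊(X : ℝ) ^ (1 / (r : ℝ))⌋₊ := ⟨_, rfl⟩
    rw [← hy] at hy1 hy2' hy3 hy4 hMx ⊢
    have hyr : (y0 : ℝ) + y2 + 3 ≤ y := hX1.trans hy1
    have hyy0 : y0 ≤ y := by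
      have : (y0 : ℝ) ≤ y := by linarith
      exact_mod_cast this
    have hyy2 : y2 ≤ y := by
      have : (y2 : ℝ) ≤ y := by linarith
      exact_mod_cast this
    obtain ⟨hVlo, hVup⟩ := hV y hy4
    have hV0 : 0 < V1 y := V1_pos y
    have hlX0 : 0 < Real.log X := Real.log_pos (by linarith)
    have hlogy : 0 < Real.log y := lt_of_lt_of_le (by positivity) hy2'
    have hM0r : (0 : ℝ) ≤ M0 := Nat.cast_nonneg _
    have hY0 : (0 : ℝ) ≤ Y := Nat.cast_nonneg Y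
    have hq1 : 0 ≤ C * ((M0 : ℝ) + 1) := by positivity
    have hq2 : 0 ≤ C * (256 * ((k : ℝ) ^ 2 * x1) / ε ^ 2) := by positivity
    have hlogX1 : 1 + C * ((M0 : ℝ) + 1) + C * (256 * ((k : ℝ) ^ 2 * x1) / ε ^ 2) ≤ Real.log y := by
      refine le_trans ?_ hy2'
      rw [le_div_iff₀ (by positivity)]
      linarith
    have hpowy : ∀ K : ℕ, (K : ℝ) ≤ θ * r → y ^ K ≤ Y := by
      intro K hK
      have h3 : ((y ^ K : ℕ) : ℝ) ≤ Y := by
        push_cast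
        calc (y : ℝ) ^ K ≤ ((X : ℝ) ^ (1 / (r : ℝ))) ^ K := by
              apply pow_le_pow_left₀ (Nat.cast_nonneg _)
              rw [hy]
              exact Nat.floor_le (by positivity)
          _ = (X : ℝ) ^ (1 / (r : ℝ) * K) := by
              rw [Real.rpow_mul hXpos.le, Real.rpow_natCast]
          _ ≤ (X : ℝ) ^ θ := by
              apply Real.rpow_le_rpow_of_exponent_le hXone
              rw [one_div, inv_mul_eq_div, div_le_iff₀ hrpos]
              exact hK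
          _ ≤ Y := hXY
      exact_mod_cast h3
    have hyK := hpowy K0 hrK
    have hyK2 := hpowy K2 hrK2
    -- the large window
    obtain ⟨M', hM'⟩ : ∃ M', M' = ⌊x1 / V1 y⌋₊ := ⟨_, rfl⟩
    have hq0 : 0 ≤ x1 / V1 y := by positivity
    have hM'up : (M' : ℝ) ≤ x1 / V1 y := by rw [hM']; exact Nat.floor_le hq0
    have hMM' : M ≤ M' := by
      rw [hM']
      apply Nat.le_floor
      rw [le_div_iff₀ hV0]
      exact hMx.trans hx10
    have hinvV : 1 / V1 y ≤ Real.log y / c := by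
      rw [div_le_div_iff₀ hV0 hc, one_mul]
      rw [div_le_iff₀ hlogy] at hVlo
      linarith
    have hinvV' : Real.log y / C ≤ 1 / V1 y := by
      rw [div_le_div_iff₀ hC hV0, one_mul]
      rw [le_div_iff₀ hlogy] at hVup
      linarith
    have hM0M' : M0 ≤ M' := by
      rw [hM']
      apply Nat.le_floor
      have e1 : (M0 : ℝ) + 1 ≤ Real.log y / C := by
        rw [le_div_iff₀ hC]
        linarith
      have e2 : 1 / V1 y ≤ x1 / V1 y := by gcongr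
      linarith
    have hM'R : M' ^ R0 ≤ Y := by
      have h2 : (M' : ℝ) ≤ x1 / c * Real.log X := by
        calc (M' : ℝ) ≤ x1 / V1 y := hM'up
          _ = x1 * (1 / V1 y) := by ring
          _ ≤ x1 * (Real.log y / c) := by gcongr
          _ ≤ x1 * (Real.log X / c) := by gcongr
          _ = x1 / c * Real.log X := by ring
      have h3 : ((M' ^ R0 : ℕ) : ℝ) ≤ Y := by
        push_cast
        calc (M' : ℝ) ^ R0 ≤ (x1 / c * Real.log X) ^ R0 :=
              pow_le_pow_left₀ (Nat.cast_nonneg _) h2 _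
          _ = (x1 / c) ^ R0 * Real.log X ^ R0 := by rw [mul_pow]
          _ ≤ ((x1 / c) ^ R0 + 1) * Real.log X ^ R0 := by
            gcongr
            linarith
          _ ≤ (X : ℝ) ^ θ := hX4
          _ ≤ Y := hXY
      exact_mod_cast h3
    have hM'x : M' * V1 y ≤ x1 := by rwa [← le_div_iff₀ hV0]
    have hWin' := win_mono hMM' hWin
    have hmain := hlaw Z Y y M' hyy0 hyK hM0M' hM'R hM'x a cc L hWin' A
    -- the difference
    classical
    have hdiff := card_diff (Ioc Z (Z + Y)) (fun n => (fun j => Nk y (a j) (cc j) (L j) n) ∈ A)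
      (fun n => (fun j => Nj y (a j) (cc j) (L j) n) ∈ A)
      (fun n => ∃ j, ∃ m ≤ Nat.sqrt M', ∀ p ∈ pr y, ¬ p ∣ n + (a j + m)) (by
        intro n _ hn
        have e1 : (fun j => Nk y (a j) (cc j) (L j) n) = fun j => Nj y (a j) (cc j) (L j) n := by
          funext j
          refine nk_eq_nj (M := M') (hWin'.1 j).2.1 ?_
          intro m hm hcon
          exact hn ⟨j, m, hm, hcon⟩
        simp only [e1])
    have hbad := bad_count a y M' Z Y (2 * (Y * V1 y) + √(Y : ℝ))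
      (fun b => hrough Y y hyy2 hyK2 Z b)
    have hS2 : ((Nat.sqrt M' + 1 : ℕ) : ℝ) ^ 2 ≤ 4 * (x1 / V1 y) := by
      have e1 : (1 : ℝ) ≤ x1 / V1 y := by
        have h2 : V1 y ≤ 1 := by
          refine hVup.trans ?_
          rw [div_le_one hlogy]
          have h3 : C ≤ C * ((M0 : ℝ) + 1) := le_mul_of_one_le_right hC.le (by linarith)
          linarith
        rw [le_div_iff₀ hV0]
        linarith
      have e2 : ((Nat.sqrt M' : ℕ) : ℝ) * (Nat.sqrt M' : ℕ) ≤ M' := by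
        exact_mod_cast Nat.sqrt_le M'
      push_cast
      exact sq_est _ _ _ e1 e2 hM'up
    have hn1 : 256 * ((k : ℝ) ^ 2 * x1) * V1 y ≤ ε ^ 2 := by
      have e1 : C * (256 * ((k : ℝ) ^ 2 * x1) / ε ^ 2) ≤ Real.log y := by linarith
      have e2 : 256 * ((k : ℝ) ^ 2 * x1) * C ≤ ε ^ 2 * Real.log y := by
        have e3 : C * (256 * ((k : ℝ) ^ 2 * x1) / ε ^ 2) = 256 * ((k : ℝ) ^ 2 * x1) * C / ε ^ 2 := by
          ring
        rw [e3, div_le_iff₀ (by positivity)] at e1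
        linarith
      calc 256 * ((k : ℝ) ^ 2 * x1) * V1 y ≤ 256 * ((k : ℝ) ^ 2 * x1) * (C / Real.log y) := by
            gcongr
        _ = 256 * ((k : ℝ) ^ 2 * x1) * C / Real.log y := by ring
        _ ≤ ε ^ 2 := by
            rw [div_le_iff₀ hlogy]
            exact e2
    have hn2 : 64 * ((k : ℝ) ^ 2 * x1) / V1 y ≤ ε ^ 2 * Y := by
      have e1 : 64 * ((k : ℝ) ^ 2 * x1) / V1 y ≤ 64 * ((k : ℝ) ^ 2 * x1) * (Real.log X / c) := by
        calc 64 * ((k : ℝ) ^ 2 * x1) / V1 y = 64 * ((k : ℝ) ^ 2 * x1) * (1 / V1 y) := by ring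
          _ ≤ 64 * ((k : ℝ) ^ 2 * x1) * (Real.log y / c) := by gcongr
          _ ≤ 64 * ((k : ℝ) ^ 2 * x1) * (Real.log X / c) := by gcongr
      refine e1.trans ?_
      have e2 : (64 * ((k : ℝ) ^ 2 * x1) / c / ε ^ 2 + 1) * Real.log X ≤ Y := by
        have := hX5.trans hXY
        rwa [pow_one] at this
      have e3 : 64 * ((k : ℝ) ^ 2 * x1) * (Real.log X / c) =
          ε ^ 2 * (64 * ((k : ℝ) ^ 2 * x1) / c / ε ^ 2 * Real.log X) := by
        field_simp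
      rw [e3]
      have e4 : 64 * ((k : ℝ) ^ 2 * x1) / c / ε ^ 2 * Real.log X ≤ Y := by
        refine le_trans ?_ e2
        exact mul_le_mul_of_nonneg_right (by linarith) hlX0.le
      gcongr
    have hest := num_est k ((Nat.sqrt M' + 1 : ℕ) : ℝ) (V1 y) Y x1 ε hk0 (Nat.cast_nonneg _) hV0
      hY0 hε hS2 hn1 hn2
    have hfin := hdiff.trans (hbad.trans hest)
    have h9 := abs_sub_le (((Ioc Z (Z + Y)).filter
      (fun n => (fun j => Nk y (a j) (cc j) (L j) n) ∈ A)).card : ℝ)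
      (((Ioc Z (Z + Y)).filter (fun n => (fun j => Nj y (a j) (cc j) (L j) n) ∈ A)).card : ℝ)
      (Y * ∑ v ∈ A, ∏ j, (Real.exp (-(L j * V1 y)) * (L j * V1 y) ^ v j / (v j).factorial))
    refine h9.trans ?_
    linarith
  obtain ⟨X0, hX0⟩ := eventually_atTop.1 hev
  exact ⟨X0, hX0⟩

end Pool.Agent.Y87.SQ
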